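import Mathlib
import Pool.Agent.helper82.SB.Shared

set_option autoImplicit false

/-!
# SB-B: cutting a corner
-/

namespace Pool.Agent.helper97.SB

open Matrix Filter Topology Pool.Agent.helper82.SB

theorem per_mul {N : ℕ} {Q : ℤ → E3} (h : ∀ i, Q (i + N) = Q i) (k : ℤ) :
    ∀ i, Q (i + N * k) = Q i := by
  induction k using Int.induction_on with
  | zero => simp
  | succ k ih =>
    intro i
    rw [show i + (N : ℤ) * (k + 1) = i + N * k + N by ring, h, ih]
  | pred k ih =>
    intro i
    have := h (i + N * (-k - 1))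
    rw [show i + (N : ℤ) * (-k - 1) + N = i + N * (-k) by ring, ih] at this
    exact this.symm

/-- It is enough to check the conditions for a polygon in one period. -/
theorem mk_knot (N : ℕ) (hN : 3 ≤ N) (Q : ℤ → E3) (hper : ∀ i, Q (i + N) = Q i)
    (hc : ∀ i : ℤ, 0 ≤ i → i < N → ¬ SameRay ℝ (Q (i - 1) - Q i) (Q (i + 1) - Q i))
    (hd : ∀ i j : ℤ, 0 ≤ i → j < N → i + 2 ≤ j → j + 2 ≤ i + N →
      Disjoint (segment ℝ (Q i) (Q (i + 1))) (segment ℝ (Q j) (Q (j + 1)))) :
    ∃ L : PolyKnot, L.n = N ∧ L.P = Q := by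
  have hN0 : (0 : ℤ) < N := by omega
  refine ⟨⟨N, Q, hN, hper, ?_, ?_⟩, rfl, rfl⟩
  · intro i
    have h1 := hc (i % N) (Int.emod_nonneg _ hN0.ne') (Int.emod_lt_of_pos _ hN0)
    have e := Int.emod_add_mul_ediv i N
    have e1 := per_mul hper (i / N) (i % N)
    have e2 := per_mul hper (i / N) (i % N - 1)
    have e3 := per_mul hper (i / N) (i % N + 1)
    rw [show i % (N : ℤ) + N * (i / N) = i by omega] at e1
    rw [show i % (N : ℤ) - 1 + N * (i / N) = i - 1 by omega] at e2
    rw [show i % (N : ℤ) + 1 + N * (i / N) = i + 1 by omega] at e3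
    rwa [e1, e2, e3]
  · intro i j h1 h2
    have ei := Int.emod_add_mul_ediv i N
    have ej := Int.emod_add_mul_ediv j N
    have i0 := Int.emod_nonneg i hN0.ne'
    have i1 := Int.emod_lt_of_pos i hN0
    have j0 := Int.emod_nonneg j hN0.ne'
    have j1 := Int.emod_lt_of_pos j hN0
    have ei1 := per_mul hper (i / N) (i % N)
    have ei3 := per_mul hper (i / N) (i % N + 1)
    rw [show i % (N : ℤ) + N * (i / N) = i by omega] at ei1
    rw [show i % (N : ℤ) + 1 + N * (i / N) = i + 1 by omega] at ei3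
    have ej1 := per_mul hper (j / N) (j % N)
    have ej3 := per_mul hper (j / N) (j % N + 1)
    rw [show j % (N : ℤ) + N * (j / N) = j by omega] at ej1
    rw [show j % (N : ℤ) + 1 + N * (j / N) = j + 1 by omega] at ej3
    rw [ei1, ei3, ej1, ej3]
    rcases lt_or_ge (i % (N : ℤ)) (j % N) with hlt | hge
    · have hq : j / (N : ℤ) = i / N := by
        have h3 : (N : ℤ) * (j / N) < N * (i / N) + N := by omega
        have h4 : (N : ℤ) * (i / N) < N * (j / N) + N := by omega
        have h5 : j / (N : ℤ) < i / N + 1 := by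
          by_contra hcon
          have : (N : ℤ) * (i / N + 1) ≤ N * (j / N) :=
            mul_le_mul_of_nonneg_left (by omega) hN0.le
          rw [mul_add] at this
          omega
        have h6 : i / (N : ℤ) < j / N + 1 := by
          by_contra hcon
          have : (N : ℤ) * (j / N + 1) ≤ N * (i / N) :=
            mul_le_mul_of_nonneg_left (by omega) hN0.le
          rw [mul_add] at this
          omega
        omega
      rw [hq] at ej
      exact hd _ _ i0 j1 (by omega) (by omega)
    · have hq : j / (N : ℤ) = i / N + 1 := by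
        have h5 : j / (N : ℤ) < i / N + 2 := by
          by_contra hcon
          have : (N : ℤ) * (i / N + 2) ≤ N * (j / N) :=
            mul_le_mul_of_nonneg_left (by omega) hN0.le
          rw [mul_add] at this
          omega
        have h6 : i / (N : ℤ) < j / N := by
          by_contra hcon
          have : (N : ℤ) * (j / N) ≤ N * (i / N) :=
            mul_le_mul_of_nonneg_left (by omega) hN0.le
          omega
        omega
      rw [hq, mul_add] at ej
      exact (hd _ _ j0 i1 (by omega) (by omega)).symm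

section cutP

variable {n : ℕ} {P : ℤ → E3} {x y : E3}

theorem cutP_per (i : ℤ) : cutP n P x y (i + ((n + 1 : ℕ) : ℤ)) = cutP n P x y i := by
  unfold cutP
  push_cast
  rw [Int.add_emod_right]

theorem cutP_low (i : ℤ) (h0 : 0 ≤ i) (h1 : i ≤ (n : ℤ) - 2) : cutP n P x y i = P i := by
  unfold cutP
  rw [Int.emod_eq_of_lt h0 (by omega), if_neg (by omega), if_neg (by omega)]

theorem cutP_x (hn : 1 ≤ n) : cutP n P x y ((n : ℤ) - 1) = x := by
  unfold cutP
  rw [Int.emod_eq_of_lt (by omega) (by omega), if_pos rfl]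

theorem cutP_y : cutP n P x y (n : ℤ) = y := by
  unfold cutP
  rw [Int.emod_eq_of_lt (by omega) (by omega), if_neg (by omega), if_pos rfl]

theorem cutP_neg_one : cutP n P x y (-1) = y := by
  have h := cutP_per (n := n) (P := P) (x := x) (y := y) (-1)
  rw [show (-1 : ℤ) + ((n + 1 : ℕ) : ℤ) = n by push_cast; ring, cutP_y] at h
  exact h.symm

theorem cutP_last (hn : 2 ≤ n) : cutP n P x y ((n : ℤ) + 1) = P 0 := by
  have h := cutP_per (n := n) (P := P) (x := x) (y := y) 0
  rw [show (0 : ℤ) + ((n + 1 : ℕ) : ℤ) = n + 1 by push_cast; ring,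
    cutP_low 0 le_rfl (by omega)] at h
  exact h

end cutP

/-- the two cut points -/
def cx (K : PolyKnot) (α : ℝ) : E3 := K.P (K.n - 1) - α • edge K.P (K.n - 2)

/-- the two cut points -/
def cy (K : PolyKnot) (β : ℝ) : E3 := K.P (K.n - 1) + β • edge K.P (K.n - 1)

theorem P_n (K : PolyKnot) : K.P K.n = K.P 0 := by
  have := K.per 0
  rwa [zero_add] at this

theorem P_neg_one (K : PolyKnot) : K.P (-1) = K.P (K.n - 1) := by
  have := K.per (-1)
  rw [show (-1 : ℤ) + K.n = K.n - 1 by ring] at this
  exact this.symm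

theorem r_notMem (K : PolyKnot) (i : ℤ) (h0 : 0 ≤ i) (h1 : i ≤ K.n - 3) :
    K.P (K.n - 1) ∉ segment ℝ (K.P i) (K.P (i + 1)) := by
  rcases h0.lt_or_eq with h0 | rfl
  · intro h
    have h2 := K.disj i (K.n - 1) (by omega) (by omega)
    exact Set.disjoint_left.mp h2 h (left_mem_segment _ _ _)
  · intro h
    apply K.corner 0
    rw [segment_eq_image_lineMap] at h
    obtain ⟨t, ht, h⟩ := h
    rw [show (0 : ℤ) - 1 = -1 by ring, P_neg_one, ← h, AffineMap.lineMap_apply]
    simp only [vsub_eq_sub, vadd_eq_add, add_sub_cancel_right]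
    exact SameRay.sameRay_nonneg_smul_left _ ht.1

theorem isClosed_seg (a b : E3) : IsClosed (segment ℝ a b) := by
  rw [segment_eq_image_lineMap]
  exact (isCompact_Icc.image AffineMap.lineMap_continuous).isClosed

theorem exists_ball (K : PolyKnot) : ∃ ε : ℝ, 0 < ε ∧ ∀ i : ℤ, 0 ≤ i → i ≤ K.n - 3 →
    ∀ z ∈ segment ℝ (K.P i) (K.P (i + 1)), z ∉ Metric.ball (K.P (K.n - 1)) ε := by
  have ho : IsOpen (⋂ i ∈ Finset.Icc (0 : ℤ) (K.n - 3), (segment ℝ (K.P i) (K.P (i + 1)))ᶜ) :=
    isOpen_biInter_finset fun i _ => (isClosed_seg _ _).isOpen_compl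
  have hr : K.P (K.n - 1) ∈ ⋂ i ∈ Finset.Icc (0 : ℤ) (K.n - 3),
      (segment ℝ (K.P i) (K.P (i + 1)))ᶜ := by
    simp only [Set.mem_iInter]
    intro i hi
    rw [Finset.mem_Icc] at hi
    exact r_notMem K i hi.1 hi.2
  obtain ⟨ε, hε, h⟩ := Metric.isOpen_iff.mp ho _ hr
  refine ⟨ε, hε, fun i h0 h1 z hz hz' => ?_⟩
  have := h hz'
  simp only [Set.mem_iInter] at this
  exact this i (Finset.mem_Icc.mpr ⟨h0, h1⟩) hz

theorem sameRay_exists {u v : E3} (h : SameRay ℝ u v) (hu : u ≠ 0) :
    ∃ c : ℝ, 0 ≤ c ∧ v = c • u := by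
  obtain ⟨c, hc, h⟩ := h.exists_nonneg_left hu
  exact ⟨c, hc, h.symm⟩

theorem sameRay_left {u v : E3} {c : ℝ} (hc : 0 < c) : SameRay ℝ (c • u) v ↔ SameRay ℝ u v := by
  refine ⟨fun h => ?_, fun h => h.pos_smul_left hc⟩
  have := h.pos_smul_left (inv_pos.mpr hc)
  rwa [smul_smul, inv_mul_cancel₀ hc.ne', one_smul] at this

theorem sameRay_right {u v : E3} {c : ℝ} (hc : 0 < c) : SameRay ℝ u (c • v) ↔ SameRay ℝ u v := by
  refine ⟨fun h => ?_, fun h => h.pos_smul_right hc⟩
  have := h.pos_smul_right (inv_pos.mpr hc)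
  rwa [smul_smul, inv_mul_cancel₀ hc.ne', one_smul] at this

/-- The polygon with the corner cut is a polygonal knot. -/
theorem cut_ok (K : PolyKnot) : ∃ δ : ℝ, 0 < δ ∧ δ ≤ 1 ∧ ∀ α β : ℝ, 0 < α → α < δ → 0 ≤ β → β < δ →
    ∃ L : PolyKnot, L.n = K.n + 1 ∧ L.P = cutP K.n K.P (cx K α) (cy K β) := by
  obtain ⟨ε, hε, hball⟩ := exists_ball K
  set a := edge K.P (K.n - 2) with ha
  set b := edge K.P (K.n - 1) with hb
  set r := K.P (K.n - 1) with hr
  have ha' : a = r - K.P (K.n - 2) := by
    rw [ha, edge, show (K.n : ℤ) - 2 + 1 = K.n - 1 by ring]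
  have hb' : b = K.P 0 - r := by
    rw [hb, edge, show (K.n : ℤ) - 1 + 1 = K.n by ring, P_n]
  have ha0 : a ≠ 0 := edge_ne_zero K _
  have hb0 : b ≠ 0 := edge_ne_zero K _
  have hcorner : ¬ SameRay ℝ (-a) b := by
    have := K.corner (K.n - 1)
    rw [show (K.n : ℤ) - 1 - 1 = K.n - 2 by ring, show (K.n : ℤ) - 1 + 1 = K.n by ring, P_n] at this
    rw [ha', hb', neg_sub]
    exact this
  have hthree := K.three
  refine ⟨min 1 (ε / (‖a‖ + ‖b‖ + 1)), by positivity, min_le_left _ _, ?_⟩
  intro α β h1 h2 h3 h4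
  have hα1 : α < 1 := lt_of_lt_of_le h2 (min_le_left _ _)
  have hβ1 : β < 1 := lt_of_lt_of_le h4 (min_le_left _ _)
  have hαε : α * (‖a‖ + ‖b‖ + 1) < ε := by
    have := lt_of_lt_of_le h2 (min_le_right _ _)
    rwa [lt_div_iff₀ (by positivity)] at this
  have hβε : β * (‖a‖ + ‖b‖ + 1) < ε := by
    have := lt_of_lt_of_le h4 (min_le_right _ _)
    rwa [lt_div_iff₀ (by positivity)] at this
  have hx : cx K α = r - α • a := rfl
  have hy : cy K β = r + β • b := rfl
  have hxball : cx K α ∈ Metric.ball r ε := by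
    rw [mem_ball_iff_norm, hx, sub_sub_cancel_left, norm_neg, norm_smul, Real.norm_eq_abs,
      abs_of_pos h1]
    have := norm_nonneg b
    nlinarith
  have hyball : cy K β ∈ Metric.ball r ε := by
    rw [mem_ball_iff_norm, hy, add_sub_cancel_left, norm_smul, Real.norm_eq_abs,
      abs_of_nonneg h3]
    have := norm_nonneg a
    nlinarith
  have hxyball : segment ℝ (cx K α) (cy K β) ⊆ Metric.ball r ε :=
    (convex_ball r ε).segment_subset hxball hyball
  -- the cut edges are contained in the old ones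
  have hxs : segment ℝ (K.P (K.n - 2)) (cx K α) ⊆ segment ℝ (K.P (K.n - 2)) r := by
    apply (convex_segment _ _).segment_subset (left_mem_segment _ _ _)
    rw [segment_eq_image_lineMap]
    refine ⟨1 - α, ⟨by linarith, by linarith⟩, ?_⟩
    rw [AffineMap.lineMap_apply, hx, ha']
    simp only [vsub_eq_sub, vadd_eq_add]
    module
  have hys : segment ℝ (cy K β) (K.P 0) ⊆ segment ℝ r (K.P 0) := by
    apply (convex_segment _ _).segment_subset _ (right_mem_segment _ _ _)
    rw [segment_eq_image_lineMap]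
    refine ⟨β, ⟨h3, hβ1.le⟩, ?_⟩
    rw [AffineMap.lineMap_apply, hy, hb']
    simp only [vsub_eq_sub, vadd_eq_add]
    module
  -- values
  have q0 : ∀ i : ℤ, 0 ≤ i → i ≤ K.n - 2 → cutP K.n K.P (cx K α) (cy K β) i = K.P i :=
    fun i => cutP_low i
  have qx : cutP K.n K.P (cx K α) (cy K β) (K.n - 1) = cx K α := cutP_x (by omega)
  have qy : cutP K.n K.P (cx K α) (cy K β) K.n = cy K β := cutP_y
  have qm : cutP K.n K.P (cx K α) (cy K β) (-1) = cy K β := cutP_neg_one
  have ql : cutP K.n K.P (cx K α) (cy K β) (K.n + 1) = K.P 0 := cutP_last (by omega)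
  apply mk_knot (K.n + 1) (by omega) _ cutP_per
  · intro i i0 i1
    push_cast at i1
    rcases (show i = 0 ∨ (1 ≤ i ∧ i ≤ K.n - 3) ∨ (i = K.n - 2) ∨ i = K.n - 1 ∨ i = K.n by omega)
      with rfl | ⟨i2, i3⟩ | rfl | rfl | rfl
    · rw [show (0 : ℤ) - 1 = -1 by ring, show (0 : ℤ) + 1 = 1 by ring, qm, q0 0 le_rfl (by omega),
        q0 1 (by omega) (by omega)]
      have h5 : cy K β - K.P 0 = (1 - β) • (K.P (-1) - K.P 0) := by
        rw [hy, hb', P_neg_one]
        module
      rw [h5]
      intro h6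
      apply K.corner 0
      rw [show (0 : ℤ) - 1 = -1 by ring, show (0 : ℤ) + 1 = 1 by ring]
      exact (sameRay_left (by linarith)).mp h6
    · rw [q0 i (by omega) (by omega), q0 (i - 1) (by omega) (by omega),
        q0 (i + 1) (by omega) (by omega)]
      exact K.corner i
    · rw [show (K.n : ℤ) - 2 + 1 = K.n - 1 by ring, qx, q0 _ (by omega) (by omega),
        q0 _ (by omega) (by omega)]
      have h5 : cx K α - K.P (K.n - 2) = (1 - α) • (K.P (K.n - 2 + 1) - K.P (K.n - 2)) := by
        rw [show (K.n : ℤ) - 2 + 1 = K.n - 1 by ring, hx, ha']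
        module
      rw [h5]
      intro h6
      apply K.corner (K.n - 2)
      exact (sameRay_right (by linarith)).mp h6
    · rw [show (K.n : ℤ) - 1 - 1 = K.n - 2 by ring, show (K.n : ℤ) - 1 + 1 = K.n by ring,
        qx, qy, q0 _ (by omega) (by omega)]
      have h5 : K.P (K.n - 2) - cx K α = (1 - α) • (-a) := by
        rw [hx, ha']
        module
      have h6 : cy K β - cx K α = α • a + β • b := by
        rw [hx, hy]
        module
      rw [h5, h6, sameRay_left (by linarith)]
      intro h7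
      obtain ⟨c, hc, h8⟩ := sameRay_exists h7 (neg_ne_zero.mpr ha0)
      have h9 : β • b = (c + α) • (-a) := by
        rw [add_smul, ← h8]
        module
      rcases h3.eq_or_lt with h10 | h10
      · rw [← h10, zero_smul] at h9
        have := smul_eq_zero.mp h9.symm
        rcases this with h11 | h11
        · linarith
        · exact ha0 (neg_eq_zero.mp h11)
      · apply hcorner
        have h11 : b = (β⁻¹ * (c + α)) • (-a) := by
          rw [mul_smul, ← h9, smul_smul, inv_mul_cancel₀ h10.ne', one_smul]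
        rw [h11]
        exact SameRay.sameRay_nonneg_smul_right _ (by positivity)
    · rw [qy, qx, ql]
      have h5 : K.P 0 - cy K β = (1 - β) • b := by
        rw [hy, hb']
        module
      have h6 : cx K α - cy K β = -(α • a + β • b) := by
        rw [hx, hy]
        module
      rw [h5, h6, sameRay_right (by linarith)]
      intro h7
      obtain ⟨c, hc, h8⟩ := sameRay_exists h7.symm hb0
      apply hcorner
      have h9 : -a = (α⁻¹ * (c + β)) • b := by
        rw [mul_smul, add_smul, ← h8]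
        rw [show -(α • a + β • b) + β • b = α • (-a) by module, smul_smul,
          inv_mul_cancel₀ h1.ne', one_smul]
      rw [h9]
      exact SameRay.sameRay_nonneg_smul_left _ (by positivity)
  · intro i j i0 jn hij hji
    push_cast at jn hji
    rcases (show j ≤ K.n - 3 ∨ j = K.n - 2 ∨ j = K.n - 1 ∨ j = K.n by omega)
      with hj | rfl | rfl | rfl
    · rw [q0 i (by omega) (by omega), q0 (i + 1) (by omega) (by omega),
        q0 j (by omega) (by omega), q0 (j + 1) (by omega) (by omega)]
      exact K.disj i j hij (by omega)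
    · rw [q0 i (by omega) (by omega), q0 (i + 1) (by omega) (by omega),
        q0 _ (by omega) (by omega), show (K.n : ℤ) - 2 + 1 = K.n - 1 by ring, qx]
      have := K.disj i (K.n - 2) hij (by omega)
      rw [show (K.n : ℤ) - 2 + 1 = K.n - 1 by ring] at this
      exact this.mono_right hxs
    · rw [q0 i (by omega) (by omega), q0 (i + 1) (by omega) (by omega),
        show (K.n : ℤ) - 1 + 1 = K.n by ring, qx, qy]
      exact Set.disjoint_left.mpr fun z hz hz' => hball i i0 (by omega) z hz (hxyball hz')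
    · rw [ql, qy]
      rcases (show i ≤ K.n - 3 ∨ i = K.n - 2 by omega) with hi | rfl
      · rw [q0 i (by omega) (by omega), q0 (i + 1) (by omega) (by omega)]
        have := K.disj i (K.n - 1) (by omega) (by omega)
        rw [show (K.n : ℤ) - 1 + 1 = K.n by ring, P_n] at this
        exact this.mono_right hys
      · rw [q0 _ (by omega) (by omega), show (K.n : ℤ) - 2 + 1 = K.n - 1 by ring, qx]
        rw [Set.disjoint_left]
        intro z hz hz'
        have hz2 := hys hz'
        rw [segment_eq_image_lineMap] at hz hz2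
        obtain ⟨s, hs, rfl⟩ := hz
        obtain ⟨t, ht, hst⟩ := hz2
        rw [AffineMap.lineMap_apply, AffineMap.lineMap_apply] at hst
        simp only [vsub_eq_sub, vadd_eq_add] at hst
        have h5 : t • b = (1 - s * (1 - α)) • (-a) := by
          have e1 : t • b = (t • (K.P 0 - r) + r) - r := by rw [hb']; module
          rw [e1, hst, hx, ha']
          module
        have hs1 : 0 < 1 - s * (1 - α) := by nlinarith [hs.1, hs.2]
        rcases ht.1.eq_or_lt with h10 | h10
        · rw [← h10, zero_smul] at h5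
          rcases smul_eq_zero.mp h5.symm with h11 | h11
          · linarith
          · exact ha0 (neg_eq_zero.mp h11)
        · apply hcorner
          have h11 : b = (t⁻¹ * (1 - s * (1 - α))) • (-a) := by
            rw [mul_smul, ← h5, smul_smul, inv_mul_cancel₀ h10.ne', one_smul]
          rw [h11]
          exact SameRay.sameRay_nonneg_smul_right _ (by positivity)

/-- SB-B. Cutting the last corner a little (by any amounts `α, β < δ`) gives an equivalent knot. -/
theorem exists_cut (K : PolyKnot) : ∃ δ : ℝ, 0 < δ ∧ ∀ α β : ℝ, 0 < α → α < δ → 0 < β → β < δ →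
    ∃ L : PolyKnot, L.n = K.n + 1 ∧
      L.P = cutP K.n K.P (K.P (K.n - 1) - α • edge K.P (K.n - 2))
        (K.P (K.n - 1) + β • edge K.P (K.n - 1)) ∧ Equivalent K L := by
  obtain ⟨δ, hδ, hδ1, hok⟩ := cut_ok K
  refine ⟨δ, hδ, ?_⟩
  intro α β h1 h2 h3 h4
  have hthree := K.three
  have hF : ∀ t : unitInterval, ∃ L : PolyKnot, L.n = K.n + 1 ∧
      L.P = cutP K.n K.P (cx K α) (cy K (t * β)) := by
    intro t
    refine hok α (t * β) h1 h2 (mul_nonneg t.2.1 h3.le) ?_
    have := t.2.2
    nlinarith [t.2.1]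
  choose F hFn hFP using hF
  have hFP' : ∀ (t : unitInterval) (i : ℤ),
      (F t).P i = cutP K.n K.P (cx K α) (cy K (t * β)) i := fun t i => by rw [hFP]
  refine ⟨F 1, hFn 1, ?_, ?_⟩
  · rw [hFP]
    simp [cx, cy]
  have hiso : Equivalent (F 0) (F 1) := by
    refine (Move.isotopy F (K.n + 1) hFn ?_).equivalent
    intro i
    simp only [hFP']
    unfold cutP
    split_ifs
    · exact continuous_const
    · unfold cy
      fun_prop
    · exact continuous_const
  -- renumber
  obtain ⟨K', k1, k2, k3, -⟩ := exists_rotate K (-1)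
  obtain ⟨L', l1, l2, l3, -⟩ := exists_rotate (F 0) (-1)
  have hsub : Move K' L' := by
    apply Move.subdivide K' L' (by rw [l1, k1, hFn])
    · intro i i0 i1
      rw [l2, k2, hFP']
      rcases i0.eq_or_lt with rfl | i0
      · rw [show (0 : ℤ) + -1 = -1 by ring, cutP_neg_one, P_neg_one]
        simp [cy]
      · rw [cutP_low _ (by omega) (by rw [k1] at i1; omega)]
    · rw [l2, k2, k2, hFP', k1, show (K.n : ℤ) + -1 = K.n - 1 by ring, cutP_x (by omega),
        show (K.n : ℤ) - 1 + -1 = K.n - 2 by ring]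
      rw [openSegment_eq_image_lineMap]
      refine ⟨1 - α, ⟨by linarith, by linarith⟩, ?_⟩
      rw [AffineMap.lineMap_apply, cx, edge, show (K.n : ℤ) - 2 + 1 = K.n - 1 by ring]
      simp only [vsub_eq_sub, vadd_eq_add]
      module
  exact (k3.trans hsub.equivalent).trans (l3.symm.trans hiso)

end Pool.Agent.helper97.SB
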